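import Pool.Agent.X21.Ht.G10

/-! MP_ae0293_ag, Q1: the heat flow of every nonnegative trivariate polynomial of degree at most 4
is eventually (for all large times) a sum of squares. -/

namespace Pool.Agent.Results.MP_ae0293_ag.QuarticHeatFlow

noncomputable section

open MvPolynomial

/-- `ℝ[x₁, x₂, x₃]` -/
abbrev Poly : Type := MvPolynomial (Fin 3) ℝ

/-- `f(x) ≥ 0` for all `x ∈ ℝ³` -/
def Nonneg (f : Poly) : Prop := ∀ x : Fin 3 → ℝ, 0 ≤ eval x f

/-- finite sums of squares of polynomials -/
def IsSOS (f : Poly) : Prop := ∃ l : List Poly, f = (l.map (fun g => g ^ 2)).sum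

/-- the Laplacian `∑ ∂ᵢ²` -/
def laplacian (f : Poly) : Poly := ∑ i : Fin 3, pderiv i (pderiv i f)

/-- the heat evolution `∑_{k ≥ 0} (t^k / k!) Δ^k f` (only finitely many terms are nonzero) -/
def heat (f : Poly) (t : ℝ) : Poly :=
  ∑ᶠ k : ℕ, C (t ^ k / (k.factorial : ℝ)) * laplacian^[k] f

lemma sos_of {p : Poly} (h : Pool.Agent.X21.Ht.SOSf (fun v => eval v p)) : IsSOS p := by
  obtain ⟨l, hl⟩ := h
  refine ⟨l, ?_⟩
  apply MvPolynomial.funext
  intro x
  have := hl x
  simp only at this
  rw [this, map_list_sum, List.map_map]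
  congr 1
  apply List.map_congr_left
  intro g _
  simp

lemma heat_eq {f : Poly} (h : laplacian (laplacian (laplacian f)) = 0) (t : ℝ) :
    heat f t = Pool.Agent.X21.Ht.Ht t f := by
  have h0 : laplacian 0 = 0 := by simp [laplacian]
  have hk : ∀ k : ℕ, laplacian^[k + 3] f = 0 := by
    intro k
    induction k with
    | zero => simpa [Function.iterate_succ_apply'] using h
    | succ k ih =>
      rw [show k + 1 + 3 = (k + 3) + 1 by ring, Function.iterate_succ_apply', ih, h0]
  unfold heat
  rw [finsum_eq_sum_of_support_subset (s := Finset.range 3)]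
  · simp only [Finset.sum_range_succ, Finset.sum_range_zero, Function.iterate_succ_apply',
      Function.iterate_zero, id]
    simp [Pool.Agent.X21.Ht.Ht, Pool.Agent.X21.Ht.lap, laplacian]
  · intro k hk'
    rw [Function.mem_support] at hk'
    simp only [Finset.coe_range, Set.mem_Iio]
    by_contra hc
    push Not at hc
    apply hk'
    obtain ⟨m, rfl⟩ := Nat.exists_eq_add_of_le' hc
    rw [hk, mul_zero]

theorem result : ∀ f : Poly, Nonneg f → ¬ IsSOS f → f.totalDegree ≤ 4 →
    ∃ T : ℝ, 0 < T ∧ ∀ t : ℝ, T ≤ t → IsSOS (heat f t) := by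
  intro f hf hs hd
  rcases Pool.Agent.X21.Ht.main f hf hd with h | ⟨h3, T, hT, h⟩
  · exact absurd (sos_of h) hs
  · exact ⟨T, hT, fun t ht => by rw [heat_eq h3]; exact sos_of (h t ht)⟩

end

end Pool.Agent.Results.MP_ae0293_ag.QuarticHeatFlow
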